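import Pool.Agent.X88.Seq.B
import Pool.Agent.X88.HI.E

/-!
# Compositions of rational maps with powers and Chebyshev polynomials
-/

set_option autoImplicit false

open Set Filter Topology Polynomial
open scoped OnePoint

namespace Pool.Agent.X88.Seq

open Pool.Agent.Helper114.Herman Pool.Agent.Helper114.Konig
open Pool.Agent.H762R2.Rt (Sinks injOn_of_deriv wro wro_ne_zero)
open Pool.Agent.X88.HI

/-- `X ^ n` or the Chebyshev polynomial `T_n`. -/
noncomputable def blk (κ : Bool) (n : ℕ) : ℂ[X] := if κ then Chebyshev.T ℂ n else X ^ n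

def Lb (κ : Bool) : Set (OnePoint ℂ) := if κ then Lche else Lpow

def Ob (κ : Bool) : Set (OnePoint ℂ) := if κ then Oche else Opow

theorem tame_blk (κ : Bool) : Tame atTop (fun n : ℕ => pmap (blk κ n)) (Lb κ) (Ob κ) := by
  cases κ
  · exact tame_pow
  · exact tame_che

theorem natDegree_blk (κ : Bool) (n : ℕ) : (blk κ n).natDegree = n := by
  cases κ
  · exact natDegree_X_pow n
  · exact natDegree_cheb n

/-- `g_0 ∘ f_1 ∘ g_1 ∘ ⋯ ∘ f_j ∘ g_j`. -/
noncomputable def cp (f : ℕ → OnePoint ℂ → OnePoint ℂ) (κ : ℕ → Bool) (n : ℕ → ℕ) :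
    ℕ → OnePoint ℂ → OnePoint ℂ
  | 0 => pmap (blk (κ 0) (n 0))
  | j + 1 => cp f κ n j ∘ f (j + 1) ∘ pmap (blk (κ (j + 1)) (n (j + 1)))

/-- All exponents `n 0, …, n k` tend to infinity. -/
def fl (k : ℕ) : Filter (ℕ → ℕ) := ⨅ N : ℕ, 𝓟 {n | ∀ i ≤ k, N ≤ n i}

theorem mem_fl {k : ℕ} {s : Set (ℕ → ℕ)} :
    s ∈ fl k ↔ ∃ N : ℕ, ∀ n : ℕ → ℕ, (∀ i ≤ k, N ≤ n i) → n ∈ s := by
  unfold fl
  rw [mem_iInf_of_directed]
  · simp only [mem_principal]
    rfl
  · intro a b
    refine ⟨max a b, ?_, ?_⟩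
    · apply principal_mono.2
      intro n hn i hi
      exact (le_max_left a b).trans (hn i hi)
    · apply principal_mono.2
      intro n hn i hi
      exact (le_max_right a b).trans (hn i hi)

theorem eventually_fl {k : ℕ} {p : (ℕ → ℕ) → Prop} :
    (∀ᶠ n in fl k, p n) ↔ ∃ N : ℕ, ∀ n : ℕ → ℕ, (∀ i ≤ k, N ≤ n i) → p n := mem_fl

theorem fl_mono (k : ℕ) : fl (k + 1) ≤ fl k := by
  intro s hs
  rw [mem_fl] at hs ⊢
  obtain ⟨N, hN⟩ := hs
  exact ⟨N, fun n hn => hN n fun i hi => hn i (by omega)⟩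

theorem tendsto_fl {k i : ℕ} (hi : i ≤ k) : Tendsto (fun n : ℕ → ℕ => n i) (fl k) atTop := by
  rw [tendsto_atTop]
  intro N
  rw [eventually_fl]
  exact ⟨N, fun n hn => hn i hi⟩

theorem tame_cp {f : ℕ → OnePoint ℂ → OnePoint ℂ} {κ : ℕ → Bool} (k : ℕ)
    (hf : ∀ i ≤ k, 1 ≤ i → Continuous (f i) ∧ Hol (f i))
    (h : ∀ i < k, ∀ x, (x ∈ Lb (κ (i + 1)) ∨ Crit (f (i + 1)) x) → f (i + 1) x ∈ Ob (κ i)) :
    Tame (fl k) (fun n => cp f κ n k) (Lb (κ 0)) (Ob (κ k)) := by
  induction k with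
  | zero => exact (tame_blk (κ 0)).pull (tendsto_fl le_rfl)
  | succ k ih =>
    have h1 := (ih (fun i hi => hf i (by omega)) (fun i hi => h i (by omega))).pull
      (l' := fl (k + 1)) (u := id) (fl_mono k)
    have h2 := (tame_blk (κ (k + 1))).pull (tendsto_fl (k := k + 1) (i := k + 1) le_rfl)
    obtain ⟨hc, hh⟩ := hf (k + 1) le_rfl (by omega)
    exact h1.comp h2 hc hh (fun x hx => h k (by omega) x (Or.inl hx))
      (fun x hx => h k (by omega) x (Or.inr hx))

theorem main_cp {f : ℕ → OnePoint ℂ → OnePoint ℂ} {κ : ℕ → Bool} (k : ℕ)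
    (hf : ∀ i ≤ k, Continuous (f i) ∧ Hol (f i))
    (h : ∀ i < k, ∀ x, (x ∈ Lb (κ (i + 1)) ∨ Crit (f (i + 1)) x) → f (i + 1) x ∈ Ob (κ i))
    (h0 : ∀ x, (x ∈ Lb (κ 0) ∨ Crit (f 0) x) → f 0 x ∈ Ob (κ k)) :
    ∃ N : ℕ, ∀ n : ℕ → ℕ, (∀ i ≤ k, N ≤ n i) →
      ∀ c, Crit (f 0 ∘ cp f κ n k) c → Sinks (f 0 ∘ cp f κ n k) c := by
  rw [← eventually_fl]
  exact (tame_cp k (fun i hi _ => hf i hi) h).main (hf 0 (Nat.zero_le _)).1 (hf 0 (Nat.zero_le _)).2
    (fun x hx => h0 x (Or.inl hx)) (fun x hx => h0 x (Or.inr hx))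

/-- The degree of the composition. -/
theorem rt_cp {f : ℕ → OnePoint ℂ → OnePoint ℂ} {κ : ℕ → Bool} {D : ℕ → ℕ} (k : ℕ)
    (hf : ∀ i ≤ k, 1 ≤ i → Rt (f i) (D i)) (hD : ∀ i ≤ k, 1 ≤ D i) {n : ℕ → ℕ}
    (hn : ∀ i ≤ k, 1 ≤ n i) :
    Rt (cp f κ n k) (n 0 * ∏ i ∈ Finset.range k, (D (i + 1) * n (i + 1))) := by
  induction k with
  | zero =>
    have h1 := rt_pmap (q := blk (κ 0) (n 0)) (by rw [natDegree_blk]; exact hn 0 le_rfl)
    rw [natDegree_blk] at h1
    simpa [cp] using h1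
  | succ k ih =>
    have h1 := ih (fun i hi => hf i (by omega)) (fun i hi => hD i (by omega))
      (fun i hi => hn i (by omega))
    have h2 := rt_pmap (q := blk (κ (k + 1)) (n (k + 1)))
      (by rw [natDegree_blk]; exact hn _ le_rfl)
    rw [natDegree_blk] at h2
    have h3 := (hf (k + 1) le_rfl (by omega)).comp h2 (hD _ le_rfl) (hn _ le_rfl)
    have hpos : 0 < n 0 * ∏ i ∈ Finset.range k, (D (i + 1) * n (i + 1)) := by
      apply Nat.mul_pos (hn 0 (by omega))
      apply Finset.prod_pos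
      intro i hi
      rw [Finset.mem_range] at hi
      exact Nat.mul_pos (hD _ (by omega)) (hn _ (by omega))
    have h4 := h1.comp h3 hpos (Nat.mul_pos (hD _ le_rfl) (hn _ le_rfl))
    rw [Finset.prod_range_succ, ← mul_assoc]
    exact h4

/-! ### The exceptional sets -/

theorem crit_finite {f : OnePoint ℂ → OnePoint ℂ} {P Q : ℂ[X]} (hf : IsRat f P Q)
    (hD : 1 ≤ max P.natDegree Q.natDegree) : {c | Crit f c}.Finite := by
  have hW : wro P Q ≠ 0 := wro_ne_zero hf.cop hD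
  have h1 : {c | Crit f c} ⊆ insert ∞ (((↑) : ℂ → OnePoint ℂ) ''
      (((wro P Q).roots.toFinset ∪ Q.roots.toFinset : Finset ℂ) : Set ℂ)) := by
    intro c hc
    induction c using OnePoint.rec with
    | infty => exact Or.inl rfl
    | coe z =>
      right
      by_contra hz
      have hz' : (wro P Q).eval z ≠ 0 ∧ Q.eval z ≠ 0 := by
        constructor
        · intro h
          apply hz
          refine ⟨z, ?_, rfl⟩
          rw [Finset.coe_union]
          left
          rw [Finset.mem_coe, Multiset.mem_toFinset, mem_roots hW]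
          exact h
        · intro h
          apply hz
          refine ⟨z, ?_, rfl⟩
          rw [Finset.coe_union]
          right
          rw [Finset.mem_coe, Multiset.mem_toFinset, mem_roots hf.ne]
          exact h
      have hd : HasStrictDerivAt (fun y => P.eval y / Q.eval y)
          (((derivative P).eval z * Q.eval z - P.eval z * (derivative Q).eval z) / (Q.eval z) ^ 2)
          z := (P.hasStrictDerivAt z).fun_div (Q.hasStrictDerivAt z) hz'.2
      have hd0 : ((derivative P).eval z * Q.eval z - P.eval z * (derivative Q).eval z) /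
          (Q.eval z) ^ 2 ≠ 0 := by
        apply div_ne_zero _ (pow_ne_zero _ hz'.2)
        have h2 := hz'.1
        unfold wro at h2
        simpa using h2
      obtain ⟨U, hU, hinj⟩ := injOn_of_deriv hd hd0
      have hV : {y : ℂ | Q.eval y ≠ 0} ∈ 𝓝 z := Q.continuous.continuousAt.eventually_ne hz'.2
      apply hc
      refine ⟨((↑) : ℂ → OnePoint ℂ) '' (U ∩ {y : ℂ | Q.eval y ≠ 0}), ?_, ?_⟩
      · exact OnePoint.isOpenEmbedding_coe.image_mem_nhds.2 (inter_mem hU hV)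
      · rintro _ ⟨x, ⟨hx, hx'⟩, rfl⟩ _ ⟨y, ⟨hy, hy'⟩, rfl⟩ hxy
        rw [hf.eval x hx', hf.eval y hy'] at hxy
        rw [hinj hx hy (OnePoint.coe_injective hxy)]
  exact (((Finset.finite_toSet _).image _).insert _).subset h1

theorem finite_Lb (κ : Bool) : (Lb κ).Finite := by
  cases κ
  · exact (Set.finite_singleton _).insert _
  · exact ((Set.finite_singleton _).insert _).insert _

theorem open_dense_compl {C : Set ℂ} (hC : IsCompact C) (hd : Dense Cᶜ) :
    IsOpen (((↑) : ℂ → OnePoint ℂ) '' C)ᶜ ∧ Dense (((↑) : ℂ → OnePoint ℂ) '' C)ᶜ := by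
  refine ⟨(hC.image OnePoint.continuous_coe).isClosed.isOpen_compl, ?_⟩
  have h1 : Dense (((↑) : ℂ → OnePoint ℂ) '' Cᶜ) :=
    OnePoint.denseRange_coe.dense_image OnePoint.continuous_coe hd
  refine h1.mono ?_
  rintro _ ⟨z, hz, rfl⟩ ⟨w, hw, he⟩
  apply hz
  rwa [← OnePoint.coe_injective he]

theorem open_dense_Ob (κ : Bool) : IsOpen (Ob κ) ∧ Dense (Ob κ) := by
  cases κ
  · have e : Ob false = (((↑) : ℂ → OnePoint ℂ) '' Metric.sphere 0 1)ᶜ := by
      show Opow = _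
      ext x
      constructor
      · rintro h ⟨z, hz, rfl⟩
        exact h z rfl (mem_sphere_zero_iff_norm.1 hz)
      · rintro h z rfl hz
        exact h ⟨z, mem_sphere_zero_iff_norm.2 hz, rfl⟩
    rw [e]
    apply open_dense_compl (isCompact_sphere _ _)
    rw [← interior_eq_empty_iff_dense_compl]
    exact interior_sphere _ one_ne_zero
  · have e : Ob true = (((↑) : ℂ → OnePoint ℂ) '' ((fun t : ℝ => (t : ℂ)) '' Icc (-1) 1))ᶜ := by
      show Oche = _
      ext x
      constructor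
      · rintro h ⟨_, ⟨t, ht, rfl⟩, rfl⟩
        exact h t ht.1 ht.2 rfl
      · rintro h t h1 h2 rfl
        exact h ⟨_, ⟨t, ⟨h1, h2⟩, rfl⟩, rfl⟩
    rw [e]
    apply open_dense_compl (isCompact_Icc.image Complex.continuous_ofReal)
    have h1 : Dense (Complex.im ⁻¹' ({0}ᶜ : Set ℝ)) :=
      (dense_compl_singleton (0 : ℝ)).preimage Complex.isOpenMap_im
    refine h1.mono ?_
    rintro z hz ⟨t, -, rfl⟩
    apply hz
    simp

end Pool.Agent.X88.Seq
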