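import Pool.Agent.X88.HI.C

/-!
# Families of maps which contract to points off a closed set
-/

set_option autoImplicit false

open Set Filter Topology
open scoped OnePoint

namespace Pool.Agent.X88.Seq

open Pool.Agent.Helper114.Herman Pool.Agent.Helper114.Konig
open Pool.Agent.H762R2.Rt (Sinks)
open Pool.Agent.X88.HI

variable {ι : Type*} {l : Filter ι}

/-- Near `x` the maps `G i` contract to points of `L`: for every open cover of `L` the image of a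
fixed neighbourhood is eventually inside one member of the cover. -/
def Shr (l : Filter ι) (G : ι → OnePoint ℂ → OnePoint ℂ) (L : Set (OnePoint ℂ))
    (x : OnePoint ℂ) : Prop :=
  ∃ U : Set (OnePoint ℂ), IsOpen U ∧ x ∈ U ∧ ∀ V : Set (Set (OnePoint ℂ)), (∀ v ∈ V, IsOpen v) →
    L ⊆ ⋃₀ V → ∀ᶠ i in l, ∃ v ∈ V, ∀ y ∈ U, G i y ∈ v

/-- Tame families. -/
structure Tame (l : Filter ι) (G : ι → OnePoint ℂ → OnePoint ℂ) (L Om : Set (OnePoint ℂ)) :
    Prop where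
  cont : ∀ᶠ i in l, Continuous (G i)
  hol : ∀ᶠ i in l, Hol (G i)
  closed : IsClosed L
  shr : ∀ x ∈ Om, Shr l G L x
  crit : ∀ V : Set (OnePoint ℂ), IsOpen V → L ⊆ V → ∀ᶠ i in l, ∀ c, Crit (G i) c → G i c ∈ V

theorem isClosed_crit (f : OnePoint ℂ → OnePoint ℂ) : IsClosed {c | Crit f c} := by
  rw [← isOpen_compl_iff, isOpen_iff_mem_nhds]
  intro c hc
  have h1 : ∃ U ∈ 𝓝 c, InjOn f U := not_not.1 hc
  obtain ⟨U, hU, hi⟩ := h1
  obtain ⟨W, hWU, hW, hcW⟩ := mem_nhds_iff.1 hU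
  filter_upwards [hW.mem_nhds hcW] with y hy h2
  exact h2 ⟨W, hW.mem_nhds hy, hi.mono hWU⟩

/-- A finite system of discs mapped into each other. -/
theorem trap_system {F : OnePoint ℂ → OnePoint ℂ} (hFc : Continuous F) (hFh : Hol F)
    {X : Finset (OnePoint ℂ)} {b : OnePoint ℂ → Bool} {α : OnePoint ℂ → ℂ} {η : OnePoint ℂ → ℝ}
    {τ : OnePoint ℂ → OnePoint ℂ} (hη0 : ∀ y ∈ X, 0 < η y) (hτX : ∀ y ∈ X, τ y ∈ X)
    (hstep : ∀ y ∈ X, ∀ w, ‖w - α y‖ ≤ η y →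
      ∃ w', ‖w' - α (τ y)‖ ≤ η (τ y) / 4 ∧ F (kap (b y) w) = kap (b (τ y)) w')
    {y₀ : OnePoint ℂ} (hy₀ : y₀ ∈ X) {w₀ : ℂ} (hw₀ : ‖w₀ - α y₀‖ ≤ η y₀) :
    Sinks F (kap (b y₀) w₀) := by
  have hit : ∀ (k : ℕ), ∀ y ∈ X, τ^[k] y ∈ X ∧ ∀ w, ‖w - α y‖ ≤ η y → (0 < k →
      ∃ w', ‖w' - α (τ^[k] y)‖ ≤ η (τ^[k] y) / 4 ∧ F^[k] (kap (b y) w) = kap (b (τ^[k] y)) w') := by
    intro k
    induction k with
    | zero => intro y hy; exact ⟨hy, fun w hw h => absurd h (lt_irrefl _)⟩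
    | succ k ih =>
      intro y hy
      obtain ⟨h1, h2⟩ := ih y hy
      rw [Function.iterate_succ_apply']
      refine ⟨hτX _ h1, fun w hw _ => ?_⟩
      rw [Function.iterate_succ_apply']
      rcases Nat.eq_zero_or_pos k with rfl | hk
      · exact hstep _ h1 _ hw
      · obtain ⟨w', h3, h4⟩ := h2 w hw hk
        rw [h4]
        exact hstep _ h1 _ (h3.trans (by have := hη0 _ h1; linarith))
  obtain ⟨i, i', hii, hrep⟩ := Set.Finite.exists_lt_map_eq_of_forall_mem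
    (f := fun k : ℕ => τ^[k] y₀) (t := (X : Set (OnePoint ℂ)))
    (fun k => (hit k y₀ hy₀).1) X.finite_toSet
  replace hrep : τ^[i] y₀ = τ^[i'] y₀ := hrep
  set e := τ^[i] y₀ with he
  obtain ⟨q, hq⟩ : ∃ q, i' = q + i := ⟨i' - i, by omega⟩
  have hq0 : 0 < q := by omega
  have heX : e ∈ X := (hit i y₀ hy₀).1
  have hper : τ^[q] e = e := by
    rw [he, ← Function.iterate_add_apply, ← hq]
    exact hrep.symm
  have hmap : ∀ w, ‖w - α e‖ ≤ η e → ∃ w', ‖w' - α e‖ ≤ η e / 4 ∧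
      F^[q] (kap (b e) w) = kap (b e) w' := by
    intro w hw
    have h1 := (hit q e heX).2 w hw hq0
    rwa [hper] at h1
  obtain ⟨z, hz1, hz2, hz3⟩ := trap (hFh.iter q) (hη0 e heX) hmap
  have hy1 : ∃ w, ‖w - α e‖ ≤ η e ∧ F^[i] (kap (b y₀) w₀) = kap (b e) w := by
    rcases Nat.eq_zero_or_pos i with hi | hi
    · subst hi
      exact ⟨w₀, hw₀, rfl⟩
    · obtain ⟨w', h3, h4⟩ := (hit i y₀ hy₀).2 w₀ hw₀ hi
      exact ⟨w', h3.trans (by have := hη0 e heX; linarith), h4⟩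
  obtain ⟨w, hw, hwy⟩ := hy1
  apply sinks_of_iterate hFc (m := i)
  refine ⟨kap (b e) z, q, hq0, hz2, ⟨kap (b e) '' Metric.ball (α e) (η e), ?_, ?_⟩, ?_⟩
  · rw [nhds_kap]
    apply image_mem_map
    apply Metric.isOpen_ball.mem_nhds
    rw [Metric.mem_ball, dist_eq_norm]
    exact hz1
  · rintro _ ⟨w', hw', rfl⟩
    rw [Metric.mem_ball, dist_eq_norm] at hw'
    refine (hz3 w' hw'.le).congr fun k => ?_
    rw [Function.iterate_mul]
  · rw [hwy]
    refine (hz3 w hw).congr fun k => ?_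
    rw [Function.iterate_mul]

/-- The finite covers of `f (L ∪ Crit f)`. -/
theorem Tame.cover {G : ι → OnePoint ℂ → OnePoint ℂ} {L Om : Set (OnePoint ℂ)}
    (h : Tame l G L Om) {f : OnePoint ℂ → OnePoint ℂ} (hf : Continuous f)
    {M : Set (OnePoint ℂ)} (hMc : IsClosed M) (hM : ∀ x ∈ M, f x ∈ Om)
    (hc : ∀ x, Crit f x → f x ∈ Om) :
    ∃ (t : Finset (OnePoint ℂ)) (U : OnePoint ℂ → Set (OnePoint ℂ)), (∀ x ∈ t, IsOpen (U x)) ∧
      (∀ x ∈ M, ∃ y ∈ t, f x ∈ U y) ∧ (∀ x, Crit f x → ∃ y ∈ t, f x ∈ U y) ∧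
      ∀ V : Set (Set (OnePoint ℂ)), (∀ v ∈ V, IsOpen v) → L ⊆ ⋃₀ V →
        ∀ᶠ i in l, ∀ x ∈ t, ∃ v ∈ V, ∀ y ∈ U x, G i y ∈ v := by
  have hK : IsCompact (f '' (M ∪ {c | Crit f c})) :=
    ((hMc.union (isClosed_crit f)).isCompact).image hf
  have hKs : ∀ x ∈ f '' (M ∪ {c | Crit f c}), Shr l G L x := by
    rintro _ ⟨x, hx | hx, rfl⟩
    · exact h.shr _ (hM x hx)
    · exact h.shr _ (hc x hx)
  choose! U hUo hUx hU using hKs
  obtain ⟨t, htK, htc⟩ := hK.elim_nhds_subcover U fun x hx => (hUo x hx).mem_nhds (hUx x hx)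
  have hcov : ∀ x ∈ M ∪ {c | Crit f c}, ∃ y ∈ t, f x ∈ U y := by
    intro x hx
    have h1 := htc ⟨x, hx, rfl⟩
    rw [Set.mem_iUnion₂] at h1
    obtain ⟨y, hy, h2⟩ := h1
    exact ⟨y, hy, h2⟩
  refine ⟨t, U, fun x hx => hUo x (htK x hx), fun x hx => hcov x (Or.inl hx),
    fun x hx => hcov x (Or.inr hx), fun V hV hLV => ?_⟩
  rw [Filter.eventually_all_finset]
  intro x hx
  exact hU x (htK x hx) V hV hLV

/-- The principle: all critical points of `f ∘ G i` are attracted by attracting cycles. -/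
theorem Tame.main {G : ι → OnePoint ℂ → OnePoint ℂ} {L Om : Set (OnePoint ℂ)}
    (h : Tame l G L Om) {f : OnePoint ℂ → OnePoint ℂ} (hf : Continuous f) (hfh : Hol f)
    (hL : ∀ x ∈ L, f x ∈ Om) (hc : ∀ x, Crit f x → f x ∈ Om) :
    ∀ᶠ i in l, ∀ c, Crit (f ∘ G i) c → Sinks (f ∘ G i) c := by
  classical
  obtain ⟨t, U, hUo, hUL, hUc, hU⟩ := h.cover hf h.closed hL hc
  -- discs around the points of `f '' L`
  have hcov : ∀ y ∈ f '' L, ∃ x ∈ t, y ∈ U x := by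
    rintro _ ⟨x, hx, rfl⟩
    exact hUL x hx
  choose! j hjt hjU using hcov
  choose b α hbα using exists_kap
  have hη : ∀ y ∈ f '' L, ∃ η : ℝ, 0 < η ∧ ∀ w, ‖w - α y‖ ≤ η → kap (b y) w ∈ U (j y) := by
    intro y hy
    have h1 : U (j y) ∈ 𝓝 (kap (b y) (α y)) := by
      rw [← hbα y]
      exact (hUo _ (hjt y hy)).mem_nhds (hjU y hy)
    have h2 := (isOpenEmbedding_kap (b y)).continuous.continuousAt.preimage_mem_nhds h1
    obtain ⟨η, hη, h3⟩ := Metric.nhds_basis_closedBall.mem_iff.1 h2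
    refine ⟨η, hη, fun w hw => h3 ?_⟩
    rw [Metric.mem_closedBall, dist_eq_norm]
    exact hw
  choose! η hη0 hηU using hη
  set D : OnePoint ℂ → Set (OnePoint ℂ) := fun y =>
    kap (b y) '' Metric.ball (α y) (η y / 4) with hD
  have hDo : ∀ y, IsOpen (D y) := fun y =>
    (isOpenEmbedding_kap (b y)).isOpenMap _ Metric.isOpen_ball
  have hDy : ∀ y ∈ f '' L, y ∈ D y := by
    intro y hy
    refine ⟨α y, Metric.mem_ball_self (by have := hη0 y hy; linarith), (hbα y).symm⟩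
  obtain ⟨X, hXL, hXc⟩ := (h.closed.isCompact.image hf).elim_nhds_subcover D
    fun y hy => (hDo y).mem_nhds (hDy y hy)
  have hcovL : L ⊆ ⋃₀ ((fun y => f ⁻¹' D y) '' (X : Set (OnePoint ℂ))) := by
    intro x hx
    have h1 := hXc ⟨x, hx, rfl⟩
    rw [Set.mem_iUnion₂] at h1
    obtain ⟨y, hy, h2⟩ := h1
    exact ⟨_, ⟨y, hy, rfl⟩, h2⟩
  have hev := hU ((fun y => f ⁻¹' D y) '' (X : Set (OnePoint ℂ))) (by
    rintro _ ⟨y, -, rfl⟩
    exact (hDo y).preimage hf) hcovL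
  have hWo : IsOpen (⋃ x ∈ t, U x) := isOpen_biUnion hUo
  have hcr := h.crit (f ⁻¹' ⋃ x ∈ t, U x) (hWo.preimage hf) (fun x hx => by
    obtain ⟨y, hy, h1⟩ := hUL x hx
    exact Set.mem_iUnion₂.2 ⟨y, hy, h1⟩)
  filter_upwards [hev, hcr, h.cont, h.hol] with i hi hci hGc hGh
  have hi' : ∀ x ∈ t, ∃ e ∈ X, ∀ y ∈ U x, f (G i y) ∈ D e := by
    intro x hx
    obtain ⟨_, ⟨e, he, rfl⟩, h1⟩ := hi x hx
    exact ⟨e, he, h1⟩
  choose! σ hσX hσ using hi'
  have hFc : Continuous (f ∘ G i) := hf.comp hGc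
  have hFh : Hol (f ∘ G i) := hfh.comp hGh
  have hout : ∀ x ∈ t, ∀ y ∈ U x, ∃ w', ‖w' - α (σ x)‖ ≤ η (σ x) / 4 ∧
      (f ∘ G i) y = kap (b (σ x)) w' := by
    intro x hx y hy
    obtain ⟨w', hw', he⟩ := hσ x hx y hy
    rw [Metric.mem_ball, dist_eq_norm] at hw'
    exact ⟨w', hw'.le, he.symm⟩
  have hall : ∀ x ∈ t, ∀ y ∈ U x, Sinks (f ∘ G i) y := by
    intro x hx y hy
    obtain ⟨w', hw', he⟩ := hout x hx y hy
    apply sinks_of_image hFc
    rw [he]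
    apply trap_system hFc hFh (τ := fun y => σ (j y)) (fun y hy => hη0 y (hXL y hy))
      (fun y hy => hσX _ (hjt y (hXL y hy))) ?_ (hσX x hx)
    · have := hη0 _ (hXL _ (hσX x hx))
      exact hw'.trans (by linarith)
    · intro y hy w hw
      exact hout _ (hjt y (hXL y hy)) _ (hηU y (hXL y hy) w hw)
  intro c hcc
  apply sinks_of_image hFc
  rcases crit_comp hGc hcc with h1 | h1
  · obtain ⟨y, hy, h2⟩ := hUc _ h1
    exact hall y hy _ h2
  · have h2 := hci c h1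
    rw [Set.mem_preimage, Set.mem_iUnion₂] at h2
    obtain ⟨y, hy, h3⟩ := h2
    exact hall y hy _ h3

/-- Compositions of tame families. -/
theorem Tame.comp {G H : ι → OnePoint ℂ → OnePoint ℂ} {L M Om Om' : Set (OnePoint ℂ)}
    (hG : Tame l G L Om) (hH : Tame l H M Om') {f : OnePoint ℂ → OnePoint ℂ} (hf : Continuous f)
    (hfh : Hol f) (hM : ∀ x ∈ M, f x ∈ Om) (hc : ∀ x, Crit f x → f x ∈ Om) :
    Tame l (fun i => G i ∘ f ∘ H i) L Om' := by
  obtain ⟨t, U, hUo, hUL, hUc, hU⟩ := hG.cover hf hH.closed hM hc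
  refine ⟨?_, ?_, hG.closed, ?_, ?_⟩
  · filter_upwards [hG.cont, hH.cont] with i h1 h2
    exact h1.comp (hf.comp h2)
  · filter_upwards [hG.hol, hH.hol] with i h1 h2
    exact h1.comp (hfh.comp h2)
  · intro x hx
    obtain ⟨U', hU'o, hxU', hU'⟩ := hH.shr x hx
    refine ⟨U', hU'o, hxU', fun V hV hLV => ?_⟩
    have h1 := hU' ((fun y => f ⁻¹' U y) '' (t : Set (OnePoint ℂ))) (by
      rintro _ ⟨y, hy, rfl⟩
      exact (hUo y hy).preimage hf) (by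
        intro z hz
        obtain ⟨y, hy, h2⟩ := hUL z hz
        exact ⟨_, ⟨y, hy, rfl⟩, h2⟩)
    filter_upwards [h1, hU V hV hLV] with i h2 h3
    obtain ⟨_, ⟨e, he, rfl⟩, h4⟩ := h2
    obtain ⟨v, hv, h5⟩ := h3 e he
    exact ⟨v, hv, fun y hy => h5 _ (h4 y hy)⟩
  · intro V hV hLV
    have h1 := hU {V} (by rintro v rfl; exact hV) (by rw [sUnion_singleton]; exact hLV)
    have hWo : IsOpen (⋃ x ∈ t, U x) := isOpen_biUnion hUo
    have h2 := hH.crit (f ⁻¹' ⋃ x ∈ t, U x) (hWo.preimage hf) (fun x hx => by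
      obtain ⟨y, hy, h1⟩ := hUL x hx
      exact Set.mem_iUnion₂.2 ⟨y, hy, h1⟩)
    filter_upwards [h1, h2, hG.crit V hV hLV, hH.cont] with i h3 h4 h5 hHc c hcc
    have h6 : ∀ y ∈ t, ∀ z ∈ U y, G i z ∈ V := by
      intro y hy z hz
      obtain ⟨v, hv, h7⟩ := h3 y hy
      rw [mem_singleton_iff] at hv
      rw [← hv]
      exact h7 z hz
    rcases crit_comp (hf.comp hHc) hcc with h7 | h7
    · exact h5 _ h7
    · rcases crit_comp hHc h7 with h8 | h8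
      · obtain ⟨y, hy, h9⟩ := hUc _ h8
        exact h6 y hy _ h9
      · have h9 := h4 c h8
        rw [Set.mem_preimage, Set.mem_iUnion₂] at h9
        obtain ⟨y, hy, h10⟩ := h9
        exact h6 y hy _ h10

theorem Tame.pull {κ : Type*} {l' : Filter κ} {G : ι → OnePoint ℂ → OnePoint ℂ}
    {L Om : Set (OnePoint ℂ)} (h : Tame l G L Om) {u : κ → ι} (hu : Tendsto u l' l) :
    Tame l' (fun k => G (u k)) L Om := by
  refine ⟨hu.eventually h.cont, hu.eventually h.hol, h.closed, fun x hx => ?_, fun V hV hLV =>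
    hu.eventually (h.crit V hV hLV)⟩
  obtain ⟨U, hU, hxU, hs⟩ := h.shr x hx
  exact ⟨U, hU, hxU, fun V hV hLV => hu.eventually (hs V hV hLV)⟩

end Pool.Agent.X88.Seq
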