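import Pool.Agent.X88.Seq.A
import Pool.Agent.X88.HI.D
import Pool.Agent.H762R2.RtD

/-!
# Powers and Chebyshev polynomials are tame
-/

set_option autoImplicit false

open Set Filter Topology Polynomial
open scoped OnePoint

namespace Pool.Agent.X88.Seq

open Pool.Agent.Helper114.Herman Pool.Agent.Helper114.Konig
open Pool.Agent.H762R2.Rt (Sinks injOn_of_deriv)
open Pool.Agent.X88.HI

/-- The action of a polynomial on the sphere. -/
noncomputable def pmap (q : ℂ[X]) : OnePoint ℂ → OnePoint ℂ := OnePoint.map fun z : ℂ => q.eval z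

theorem pmap_coe (q : ℂ[X]) (z : ℂ) : pmap q (z : OnePoint ℂ) = ((q.eval z : ℂ) : OnePoint ℂ) := rfl

theorem pmap_inf (q : ℂ[X]) : pmap q ∞ = ∞ := rfl

theorem isRat_pmap {q : ℂ[X]} (hq : 1 ≤ q.natDegree) : IsRat (pmap q) q 1 := by
  obtain ⟨f, h1, h2⟩ := exists_isRat (P := q) (Q := 1) isCoprime_one_right one_ne_zero
  have h3 : f = pmap q := by
    funext x
    induction x using OnePoint.rec with
    | infty => rw [pmap_inf]; exact h2 (by rw [natDegree_one]; omega)
    | coe z =>
      rw [pmap_coe, h1.eval z (by simp)]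
      simp
  rwa [← h3]

theorem rt_pmap {q : ℂ[X]} (hq : 1 ≤ q.natDegree) : Rt (pmap q) q.natDegree :=
  ⟨q, 1, isRat_pmap hq, by rw [natDegree_one]; omega⟩

theorem hol_pmap {q : ℂ[X]} (hq : 1 ≤ q.natDegree) : Hol (pmap q) :=
  hol_rat (isRat_pmap hq) (by rw [natDegree_one]; omega)

theorem not_crit {q : ℂ[X]} {z : ℂ} (h : (derivative q).eval z ≠ 0) :
    ¬ Crit (pmap q) (z : OnePoint ℂ) := by
  intro hc
  obtain ⟨U, hU, hi⟩ := injOn_of_deriv (q.hasStrictDerivAt z) h
  apply hc
  refine ⟨((↑) : ℂ → OnePoint ℂ) '' U, OnePoint.isOpenEmbedding_coe.image_mem_nhds.2 hU, ?_⟩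
  rintro _ ⟨x, hx, rfl⟩ _ ⟨y, hy, rfl⟩ hxy
  rw [pmap_coe, pmap_coe] at hxy
  rw [hi hx hy (OnePoint.coe_injective hxy)]

theorem exists_out {V : Set (OnePoint ℂ)} (hV : IsOpen V) (h : ∞ ∈ V) :
    ∃ R : ℝ, 0 ≤ R ∧ ∀ z : ℂ, R < ‖z‖ → (z : OnePoint ℂ) ∈ V := by
  have h1 := ((OnePoint.isOpen_iff_of_mem h).1 hV).2
  obtain ⟨R, hR⟩ := h1.isBounded.exists_norm_le
  refine ⟨max R 0, le_max_right _ _, fun z hz => ?_⟩
  by_contra hcon
  have h2 := hR z hcon
  exact absurd (h2.trans (le_max_left R 0)) (not_le.2 hz)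

theorem shr_of_unif {ι : Type*} {l : Filter ι} {G : ι → OnePoint ℂ → OnePoint ℂ}
    {L : Set (OnePoint ℂ)} {a x : OnePoint ℂ} (ha : a ∈ L) {U : Set (OnePoint ℂ)} (hU : IsOpen U)
    (hx : x ∈ U) (h : ∀ V : Set (OnePoint ℂ), IsOpen V → a ∈ V → ∀ᶠ i in l, ∀ y ∈ U, G i y ∈ V) :
    Shr l G L x := by
  refine ⟨U, hU, hx, fun V hV hL => ?_⟩
  obtain ⟨v, hv, hav⟩ := hL ha
  filter_upwards [h v (hV v hv) hav] with i hi
  exact ⟨v, hv, hi⟩

/-! ### Powers -/

/-- The marked points `0`, `∞`. -/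
def Lpow : Set (OnePoint ℂ) := {((0 : ℂ) : OnePoint ℂ), ∞}

/-- The complement of the unit circle. -/
def Opow : Set (OnePoint ℂ) := {x | ∀ z : ℂ, x = (z : OnePoint ℂ) → ‖z‖ ≠ 1}

theorem out_open (R : ℝ) : IsOpen ((((↑) : ℂ → OnePoint ℂ) '' Metric.closedBall 0 R)ᶜ) :=
  ((isCompact_closedBall (0 : ℂ) R).image OnePoint.continuous_coe).isClosed.isOpen_compl

theorem tame_pow : Tame atTop (fun n : ℕ => pmap (X ^ n)) Lpow Opow := by
  refine ⟨?_, ?_, ?_, ?_, ?_⟩
  · filter_upwards [eventually_ge_atTop 1] with n hn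
    exact (isRat_pmap (by rw [natDegree_X_pow]; exact hn)).cont
  · filter_upwards [eventually_ge_atTop 1] with n hn
    exact hol_pmap (by rw [natDegree_X_pow]; exact hn)
  · exact ((Set.finite_singleton _).insert _).isClosed
  · intro x hx
    -- the case of the exterior
    have hout : ∀ r : ℝ, 1 < r → x ∈ (((↑) : ℂ → OnePoint ℂ) '' Metric.closedBall 0 r)ᶜ →
        Shr atTop (fun n : ℕ => pmap (X ^ n)) Lpow x := by
      intro r hr hxr
      refine shr_of_unif (a := ∞) (Or.inr rfl) (out_open r) hxr fun V hV hVi => ?_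
      obtain ⟨R, -, hR⟩ := exists_out hV hVi
      filter_upwards [(tendsto_pow_atTop_atTop_of_one_lt hr).eventually_gt_atTop R] with n hn y hy
      induction y using OnePoint.rec with
      | infty => rw [pmap_inf]; exact hVi
      | coe z =>
        rw [pmap_coe]
        apply hR
        have h1 : r < ‖z‖ := by
          by_contra h2
          exact hy ⟨z, by rw [mem_closedBall_zero_iff]; exact not_lt.1 h2, rfl⟩
        rw [eval_pow, eval_X, norm_pow]
        calc R < r ^ n := hn
          _ ≤ ‖z‖ ^ n := by gcongr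
    induction x using OnePoint.rec with
    | infty => exact hout 2 one_lt_two (by rintro ⟨z, -, h⟩; exact OnePoint.coe_ne_infty z h)
    | coe z =>
      have hz := hx z rfl
      rcases lt_or_gt_of_ne hz with h1 | h1
      · obtain ⟨r, hr1, hr2⟩ := exists_between h1
        have hr0 : 0 ≤ r := (norm_nonneg z).trans hr1.le
        refine shr_of_unif (a := ((0 : ℂ) : OnePoint ℂ)) (Or.inl rfl)
          (U := ((↑) : ℂ → OnePoint ℂ) '' Metric.ball 0 r)
          (OnePoint.isOpenEmbedding_coe.isOpenMap _ Metric.isOpen_ball)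
          ⟨z, by rw [mem_ball_zero_iff]; exact hr1, rfl⟩ fun V hV hV0 => ?_
        have h2 : ((↑) : ℂ → OnePoint ℂ) ⁻¹' V ∈ 𝓝 (0 : ℂ) :=
          OnePoint.continuous_coe.continuousAt.preimage_mem_nhds (hV.mem_nhds hV0)
        obtain ⟨ε, hε, h3⟩ := Metric.mem_nhds_iff.1 h2
        filter_upwards [(tendsto_pow_atTop_nhds_zero_of_lt_one hr0 hr2).eventually
          (gt_mem_nhds hε)] with n hn y hy
        obtain ⟨w, hw, rfl⟩ := hy
        rw [mem_ball_zero_iff] at hw
        rw [pmap_coe]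
        apply h3
        rw [mem_ball_zero_iff, eval_pow, eval_X, norm_pow]
        calc ‖w‖ ^ n ≤ r ^ n := by gcongr
          _ < ε := hn
      · obtain ⟨r, hr1, hr2⟩ := exists_between h1
        refine hout r hr1 ?_
        rintro ⟨w, hw, he⟩
        rw [mem_closedBall_zero_iff] at hw
        rw [OnePoint.coe_injective he] at hw
        exact absurd hw (not_le.2 hr2)
  · intro V hV hL
    filter_upwards [eventually_ge_atTop 1] with n hn c hc
    induction c using OnePoint.rec with
    | infty => rw [pmap_inf]; exact hL (Or.inr rfl)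
    | coe z =>
      have h1 : z = 0 := by
        by_contra hz
        apply not_crit _ hc
        rw [derivative_X_pow, eval_mul, eval_pow, eval_X, eval_C]
        exact mul_ne_zero (by exact_mod_cast (by omega : n ≠ 0)) (pow_ne_zero _ hz)
      rw [pmap_coe, h1, eval_pow, eval_X, zero_pow (by omega)]
      exact hL (Or.inl rfl)

/-! ### Chebyshev polynomials -/

/-- Half of the sum of the distances to `1` and `-1`. -/
noncomputable def rho (z : ℂ) : ℝ := (‖z - 1‖ + ‖z + 1‖) / 2

theorem continuous_rho : Continuous rho := by unfold rho; fun_prop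

theorem rho_ge (z : ℂ) : ‖z‖ ≤ rho z := by
  unfold rho
  have h1 : ‖(z - 1) + (z + 1)‖ ≤ ‖z - 1‖ + ‖z + 1‖ := norm_add_le _ _
  have h2 : (z - 1) + (z + 1) = 2 * z := by ring
  rw [h2, norm_mul, Complex.norm_ofNat] at h1
  linarith

theorem rho_le (z : ℂ) : rho z ≤ ‖z‖ + 1 := by
  unfold rho
  have h1 : ‖z - 1‖ ≤ ‖z‖ + ‖(1 : ℂ)‖ := norm_sub_le _ _
  have h2 : ‖z + 1‖ ≤ ‖z‖ + ‖(1 : ℂ)‖ := norm_add_le _ _
  rw [norm_one] at h1 h2
  linarith

theorem sq_add_sq (w : ℂ) : ‖Complex.sin w‖ ^ 2 + ‖Complex.cos w‖ ^ 2 = Real.cosh (2 * w.im) := by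
  have h1 : ‖Complex.exp (w * Complex.I)‖ = Real.exp (-w.im) := by
    rw [Complex.norm_exp]
    congr 1
    simp
  have h2 : ‖Complex.exp (-w * Complex.I)‖ = Real.exp w.im := by
    rw [Complex.norm_exp]
    congr 1
    simp
  have h3 := parallelogram_law_with_norm ℝ (Complex.exp (w * Complex.I))
    (Complex.exp (-w * Complex.I))
  have h4 : ‖Complex.cos w‖ = ‖Complex.exp (w * Complex.I) + Complex.exp (-w * Complex.I)‖ / 2 := by
    rw [Complex.cos, norm_div, Complex.norm_ofNat]
  have h5 : ‖Complex.sin w‖ = ‖Complex.exp (w * Complex.I) - Complex.exp (-w * Complex.I)‖ / 2 := by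
    rw [Complex.sin, norm_div, Complex.norm_ofNat, norm_mul, Complex.norm_I, mul_one, norm_sub_rev]
  rw [h4, h5, Real.cosh_eq]
  rw [h1, h2] at h3
  have h6 : Real.exp (2 * w.im) = Real.exp w.im * Real.exp w.im := by
    rw [← Real.exp_add]; ring_nf
  have h7 : Real.exp (-(2 * w.im)) = Real.exp (-w.im) * Real.exp (-w.im) := by
    rw [← Real.exp_add]; ring_nf
  rw [h6, h7]
  nlinarith [h3]

theorem rho_cos (θ : ℂ) : rho (Complex.cos θ) = Real.cosh θ.im := by
  have h := sq_add_sq (θ / 2)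
  have him : 2 * (θ / 2).im = θ.im := by
    have : (θ / 2).im = θ.im / 2 := by
      rw [show (θ / 2 : ℂ) = θ / ((2 : ℝ) : ℂ) by norm_num, Complex.div_ofReal_im]
    rw [this]; ring
  rw [him] at h
  rw [← h]
  have e : θ = 2 * (θ / 2) := by ring
  have h1 : Complex.cos θ - 1 = -(2 * Complex.sin (θ / 2) ^ 2) := by
    conv_lhs => rw [e, Complex.cos_two_mul]
    have := Complex.sin_sq_add_cos_sq (θ / 2)
    linear_combination 2 * this
  have h2 : Complex.cos θ + 1 = 2 * Complex.cos (θ / 2) ^ 2 := by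
    conv_lhs => rw [e, Complex.cos_two_mul]
    ring
  unfold rho
  rw [h1, h2, norm_neg, norm_mul, norm_mul, norm_pow, norm_pow, Complex.norm_ofNat]
  ring

theorem cosh_pow_le {y : ℝ} (n : ℕ) : Real.cosh y ^ n ≤ Real.cosh (n * y) := by
  rw [← Real.cosh_abs y, ← Real.cosh_abs (n * y), abs_mul, Nat.abs_cast]
  have hy : 0 ≤ |y| := abs_nonneg y
  generalize |y| = y at hy
  induction n with
  | zero => simp
  | succ n ih =>
    rw [pow_succ]
    push_cast
    rw [add_mul, one_mul, Real.cosh_add]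
    have h1 : 0 ≤ Real.sinh (n * y) * Real.sinh y := by
      apply mul_nonneg
      · exact Real.sinh_nonneg_iff.2 (by positivity)
      · exact Real.sinh_nonneg_iff.2 hy
    have h2 := mul_le_mul_of_nonneg_right ih (Real.cosh_pos y).le
    linarith

theorem cheb_ge (n : ℕ) (z : ℂ) : rho z ^ n - 1 ≤ ‖(Chebyshev.T ℂ n).eval z‖ := by
  obtain ⟨θ, rfl⟩ := Complex.cos_surjective z
  rw [Chebyshev.T_complex_cos]
  have h1 := rho_le (Complex.cos ((n : ℤ) * θ))
  rw [rho_cos] at h1
  have h2 : (((n : ℤ) : ℂ) * θ).im = n * θ.im := by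
    rw [show (((n : ℤ) : ℂ)) = ((n : ℝ) : ℂ) by push_cast; rfl, Complex.im_ofReal_mul]
  rw [h2] at h1
  have h3 := cosh_pow_le (y := θ.im) n
  rw [rho_cos]
  linarith

/-- The marked points `1`, `-1`, `∞`. -/
def Lche : Set (OnePoint ℂ) := {((1 : ℂ) : OnePoint ℂ), ((-1 : ℂ) : OnePoint ℂ), ∞}

/-- The complement of the segment `[-1, 1]`. -/
def Oche : Set (OnePoint ℂ) := {x | ∀ t : ℝ, -1 ≤ t → t ≤ 1 → x ≠ ((t : ℂ) : OnePoint ℂ)}

theorem rho_gt {z : ℂ} (h : (z : OnePoint ℂ) ∈ Oche) : 1 < rho z := by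
  obtain ⟨θ, rfl⟩ := Complex.cos_surjective z
  rw [rho_cos, Real.one_lt_cosh]
  intro h0
  have h1 : θ = (θ.re : ℂ) := Complex.ext (by simp) (by simp [h0])
  rw [h1, ← Complex.ofReal_cos] at h
  exact h (Real.cos θ.re) (Real.neg_one_le_cos _) (Real.cos_le_one _) rfl

theorem natDegree_cheb (n : ℕ) : (Chebyshev.T ℂ n).natDegree = n := by
  rw [Chebyshev.natDegree_T]
  simp

theorem tame_che : Tame atTop (fun n : ℕ => pmap (Chebyshev.T ℂ n)) Lche Oche := by
  refine ⟨?_, ?_, ?_, ?_, ?_⟩
  · filter_upwards [eventually_ge_atTop 1] with n hn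
    exact (isRat_pmap (by rw [natDegree_cheb]; exact hn)).cont
  · filter_upwards [eventually_ge_atTop 1] with n hn
    exact hol_pmap (by rw [natDegree_cheb]; exact hn)
  · exact (((Set.finite_singleton _).insert _).insert _).isClosed
  · intro x hx
    have hout : ∀ r : ℝ, 1 < r → x ∈ (((↑) : ℂ → OnePoint ℂ) '' {z | rho z ≤ r})ᶜ →
        Shr atTop (fun n : ℕ => pmap (Chebyshev.T ℂ n)) Lche x := by
      intro r hr hxr
      have hcpt : IsCompact {z : ℂ | rho z ≤ r} := by
        apply (isCompact_closedBall (0 : ℂ) r).of_isClosed_subset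
        · exact isClosed_le continuous_rho continuous_const
        · intro z hz
          rw [mem_closedBall_zero_iff]
          exact (rho_ge z).trans hz
      refine shr_of_unif (a := ∞) (Or.inr (Or.inr rfl))
        (hcpt.image OnePoint.continuous_coe).isClosed.isOpen_compl hxr fun V hV hVi => ?_
      obtain ⟨R, -, hR⟩ := exists_out hV hVi
      filter_upwards [(tendsto_pow_atTop_atTop_of_one_lt hr).eventually_gt_atTop (R + 1)] with
        n hn y hy
      induction y using OnePoint.rec with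
      | infty => rw [pmap_inf]; exact hVi
      | coe z =>
        rw [pmap_coe]
        apply hR
        have h1 : r < rho z := by
          by_contra h2
          exact hy ⟨z, not_lt.1 h2, rfl⟩
        have h2 : r ^ n ≤ rho z ^ n := by gcongr
        have h3 := cheb_ge n z
        linarith
    induction x using OnePoint.rec with
    | infty => exact hout 2 one_lt_two (by rintro ⟨z, -, h⟩; exact OnePoint.coe_ne_infty z h)
    | coe z =>
      obtain ⟨r, hr1, hr2⟩ := exists_between (rho_gt hx)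
      refine hout r hr1 ?_
      rintro ⟨w, hw, he⟩
      rw [OnePoint.coe_injective he] at hw
      exact absurd hw (not_le.2 hr2)
  · intro V hV hL
    filter_upwards [eventually_ge_atTop 1] with n hn c hc
    induction c using OnePoint.rec with
    | infty => rw [pmap_inf]; exact hL (Or.inr (Or.inr rfl))
    | coe z =>
      have h0 : (derivative (Chebyshev.T ℂ n)).eval z = 0 := by
        by_contra h1
        exact not_crit h1 hc
      rw [Chebyshev.T_derivative_eq_U, eval_mul] at h0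
      have h1 : (Chebyshev.U ℂ (n - 1)).eval z = 0 := by
        rcases mul_eq_zero.1 h0 with h2 | h2
        · exfalso
          rw [eval_intCast] at h2
          have h3 : (n : ℤ) = 0 := by exact_mod_cast h2
          omega
        · exact h2
      obtain ⟨θ, rfl⟩ := Complex.cos_surjective z
      have h2 := Chebyshev.U_complex_cos θ (n - 1)
      rw [h1, zero_mul] at h2
      have h3 : Complex.sin ((n : ℤ) * θ) = 0 := by
        rw [h2]
        congr 1
        push_cast
        ring
      have h4 := Complex.sin_sq_add_cos_sq ((n : ℤ) * θ)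
      rw [h3, zero_pow two_ne_zero, zero_add, sq, mul_self_eq_one_iff,
        ← Chebyshev.T_complex_cos] at h4
      rw [pmap_coe]
      rcases h4 with h5 | h5
      · rw [h5]
        exact hL (Or.inl rfl)
      · rw [h5]
        exact hL (Or.inr (Or.inl rfl))

end Pool.Agent.X88.Seq
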